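import Pool.Agent.Helper79.KN.Defs

/-!
The generalized Tate conjecture for products of two varieties `w ^ (r ^ e) = f(x_1, …, x_m)`: definitions.

`T` is the part of `H ^ m` of the variety on which the group of the `r ^ e`-th roots of unity acts by nontrivial characters; it
is the sum of the eigenspaces for the characters `x` and their inverses.
-/

set_option autoImplicit false

open Matrix H77MT Pool.Agent.Helper79.KN

namespace Pool.Agent.Helper33.KN

variable {Γ X T n K : Type} [Group Γ] [Fintype n] [DecidableEq n] [Field K]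

/-- The matrix of `γ` on the eigenspace for the character `x` (for `(x, true)`) or its inverse (for `(x, false)`); `c` is the
inverse of the cyclotomic character, and the two eigenspaces are dual to each other, with values in `c ^ m`. -/
def act (ρ : Rep Γ X n K) (m : ℕ) (c : Γ →* Kˣ) (γ : Γ) (i : X × Bool) : Matrix n n K :=
  if i.2 then (ρ i.1 γ : Matrix n n K) else ((c γ : K) ^ m) • (ρ i.1 γ⁻¹ : Matrix n n K)ᵀ

/-- The action of `γ` on `T`. -/
def actOne (ρ : Rep Γ X n K) (m : ℕ) (c : Γ →* Kˣ) (γ : Γ) (v : X × Bool → n → K) : X × Bool → n → K :=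
  fun i => act ρ m c γ i *ᵥ v i

/-- The action of `γ` on `T ⊗ T`. -/
def actTwo (ρ : Rep Γ X n K) (m : ℕ) (c : Γ →* Kˣ) (γ : Γ) (M : X × Bool → X × Bool → Matrix n n K) :
    X × Bool → X × Bool → Matrix n n K :=
  fun i j => act ρ m c γ i * M i j * (act ρ m c γ j)ᵀ

/-- `P` is stable under a subgroup `Δ` of finite index, and the eigenvalues of the powers of the Frobenius element `γ₀` in `Δ`
on the twist `P(1)` are algebraic integers. -/
def IsEffective {U : Type} [AddCommGroup U] [Module K U] (A : Γ → U → U) (c : Γ →* Kˣ) (γ₀ : Γ) (P : Submodule K U) :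
    Prop :=
  ∃ Δ : Subgroup Γ, Δ.FiniteIndex ∧ (∀ γ ∈ Δ, ∀ u ∈ P, A γ u ∈ P) ∧
    ∀ k : ℕ, 0 < k → γ₀ ^ k ∈ Δ → ∀ u ∈ P, u ≠ 0 → ∀ z : K, A (γ₀ ^ k) u = z • u →
      IsIntegral ℤ (z * ((c γ₀ : K) ^ k)⁻¹)

/-- The Hodge numbers `(m, 0)` of the eigenspaces. -/
def hzero (h : T → X → ℤ → ℕ) (m : ℕ) (t : T) (i : X × Bool) : ℕ := if i.2 then h t i.1 0 else h t i.1 m

open Classical in
/-- Ordinary reduction at the place of `γ₀`: for all `t`, there is a valuation for which the slopes of the eigenvalues of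
`γ₀` on the eigenspaces are given by the numbers `h t`; we only need the numbers of the units. -/
def IsOrdinary (ρ : Rep Γ X n K) (h : T → X → ℤ → ℕ) (m : ℕ) (c : Γ →* Kˣ) (γ₀ : Γ) : Prop :=
  ∀ t, ∃ O : ValuationSubring K, O.valuation (c γ₀ : K) < 1 ∧
    ∀ i, ((act ρ m c γ₀ i).charpoly.roots.filter fun z => O.valuation z = 1).card = hzero h m t i

/-- The span of the classes of the pairings of the eigenspaces for `x` and its inverse. -/
def pairings (X n K : Type) [Fintype n] [DecidableEq n] [Field K] : Submodule K (X × Bool → X × Bool → Matrix n n K) where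
  carrier := {M | ∀ i j, (j = (i.1, !i.2) → ∃ a : K, M i j = a • (1 : Matrix n n K)) ∧ (j ≠ (i.1, !i.2) → M i j = 0)}
  add_mem' := by
    intro M N hM hN i j
    refine ⟨fun h => ?_, fun h => ?_⟩
    · obtain ⟨a, ha⟩ := (hM i j).1 h
      obtain ⟨b, hb⟩ := (hN i j).1 h
      exact ⟨a + b, by rw [Pi.add_apply, Pi.add_apply, ha, hb, add_smul]⟩
    · rw [Pi.add_apply, Pi.add_apply, (hM i j).2 h, (hN i j).2 h, add_zero]
  zero_mem' := fun i j => ⟨fun _ => ⟨0, by simp⟩, fun _ => rfl⟩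
  smul_mem' := by
    intro s M hM i j
    refine ⟨fun h => ?_, fun h => ?_⟩
    · obtain ⟨a, ha⟩ := (hM i j).1 h
      exact ⟨s * a, by rw [Pi.smul_apply, Pi.smul_apply, ha, smul_smul]⟩
    · rw [Pi.smul_apply, Pi.smul_apply, (hM i j).2 h, smul_zero]

/-- Subspaces of `T` and `T ⊗ T` which are effective after a twist are zero, respectively contained in the span of the classes
of the pairings. -/
def Coniveau (ρ : Rep Γ X n K) (h : T → X → ℤ → ℕ) (m : ℕ) : Prop :=
  ∀ (c : Γ →* Kˣ) (γ₀ : Γ), IsOrdinary ρ h m c γ₀ →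
    (∀ P, IsEffective (actOne ρ m c) c γ₀ P → P = ⊥) ∧
    ∀ P, IsEffective (actTwo ρ m c) c γ₀ P → P ≤ pairings X n K

/-- Any two eigenspaces have holomorphic forms at the same time. -/
structure IsMeet (h : T → X → ℤ → ℕ) (m : ℕ) : Prop where
  two : ∀ i j : X × Bool, i ≠ j → ∃ t, 0 < hzero h m t i ∧ 0 < hzero h m t j
  one : ∀ i : X × Bool, ∃ t, 2 ≤ hzero h m t i

/-- `Coniveau` follows from `IsFull`. -/
def Cor : Prop :=
  ∀ (Γ X T n K : Type) [Group Γ] [Fintype X] [DecidableEq X] [Fintype n] [DecidableEq n] [Field K] [IsAlgClosed K]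
    [CharZero K] (h : T → X → ℤ → ℕ) (m : ℕ) (ρ : Rep Γ X n K), 0 < m → 2 < Fintype.card n → IsMeet h m → IsFull ρ →
    Coniveau ρ h m

/-- The numbers of `w ^ (r ^ e) = f(x_1, …, x_m)`. -/
def MeetSpec : Prop :=
  ∀ (m : ℕ) (a : Fin m → ℕ) (r e : ℕ), r.Prime → 0 < e → (∀ k, 1 < a k) → 2 < ∏ k, (a k - 1) →
    2 * ∏ k, a k < r → ∑ k, (1 / a k : ℚ) < 1 / 2 →
    IsMeet (X := {u : ℕ // 0 < u ∧ 2 * u < r ^ e}) (T := {t : ℕ // Nat.Coprime t r})
      (fun t u q => spec a (r ^ e) (t.1 * u.1 % r ^ e) q) m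

end Pool.Agent.Helper33.KN
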