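import Mathlib

/-!
Subspaces of the space of square matrices which are stable under multiplications by elementary matrices.
-/

set_option autoImplicit false

open Matrix

namespace Pool.Agent.Helper33.KN

variable {n K : Type} [Fintype n] [DecidableEq n] [Field K]

/-- matrix units -/
abbrev E (K : Type) [Field K] {n : Type} [DecidableEq n] (p q : n) : Matrix n n K := Matrix.single p q (1 : K)

theorem E_mul_apply (p q a b : n) (M : Matrix n n K) : (E K p q * M) a b = if a = p then M q b else 0 := by
  by_cases h : a = p
  · subst h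
    simp
  · rw [if_neg h, Matrix.single_mul_apply_of_ne _ _ _ _ _ h]

theorem mul_E_apply (p q a b : n) (M : Matrix n n K) : (M * E K p q) a b = if b = q then M a p else 0 := by
  by_cases h : b = q
  · subst h
    simp
  · rw [if_neg h, Matrix.mul_single_apply_of_ne _ _ _ _ _ h]

theorem E_apply (p q a b : n) : (E K p q) a b = if a = p ∧ b = q then 1 else 0 := by
  simp only [E, Matrix.single_apply, eq_comm]

theorem E_mul_E (p q r s : n) : E K p q * E K r s = if q = r then E K p s else 0 := by
  by_cases h : q = r
  · subst h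
    simp
  · rw [if_neg h]
    exact Matrix.single_mul_single_of_ne _ _ _ _ h _

/-- the span of the matrix units -/
theorem mem_of_units {P : Submodule K (Matrix n n K)} (h : ∀ p q, E K p q ∈ P) (M : Matrix n n K) : M ∈ P := by
  rw [Matrix.matrix_eq_sum_single M]
  refine P.sum_mem fun i _ => P.sum_mem fun j _ => ?_
  have : Matrix.single i j (M i j) = M i j • E K i j := by
    rw [Matrix.smul_single, smul_eq_mul, mul_one]
  rw [this]
  exact P.smul_mem _ (h i j)

/-- stable under left and right multiplication -/
theorem all_of_mul {P : Submodule K (Matrix n n K)} (hn : 1 < Fintype.card n)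
    (hl : ∀ p q, p ≠ q → ∀ M ∈ P, E K p q * M ∈ P) (hr : ∀ p q, p ≠ q → ∀ M ∈ P, M * E K p q ∈ P)
    {M : Matrix n n K} (hM : M ∈ P) (h0 : M ≠ 0) (N : Matrix n n K) : N ∈ P := by
  have hne : ∀ a : n, ∃ b, b ≠ a := fun a => by
    obtain ⟨b, hb⟩ := Fintype.exists_ne_of_one_lt_card hn a
    exact ⟨b, hb⟩
  obtain ⟨a, b, hab⟩ : ∃ a b, M a b ≠ 0 := by
    by_contra hc
    push Not at hc
    exact h0 (by ext a b; exact hc a b)
  obtain ⟨p, hp⟩ := hne a
  obtain ⟨q, hq⟩ := hne b
  have h1 : E K p q ∈ P := by
    have h2 := hr b q hq.symm _ (hl p a hp _ hM)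
    have h3 : E K p a * M * E K b q = M a b • E K p q := by
      ext c d
      rw [mul_E_apply, Matrix.smul_apply, E_apply, E_mul_apply]
      by_cases h4 : d = q <;> by_cases h5 : c = p <;> simp [h4, h5]
    rw [h3] at h2
    exact (P.smul_mem_iff hab).1 h2
  apply mem_of_units
  intro s t
  have h2 : E K s q ∈ P := by
    by_cases h : s = p
    · rw [h]; exact h1
    · have := hl s p h _ h1
      rwa [E_mul_E, if_pos rfl] at this
  by_cases h : t = q
  · rw [h]; exact h2
  · have := hr q t (fun e => h e.symm) _ h2
    rwa [E_mul_E, if_pos rfl] at this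

/-- vectors -/
theorem all_vec {P : Submodule K (n → K)} (hn : 1 < Fintype.card n)
    (hl : ∀ p q, p ≠ q → ∀ v ∈ P, E K p q *ᵥ v ∈ P) {v : n → K} (hv : v ∈ P) (h0 : v ≠ 0) (w : n → K) : w ∈ P := by
  have key : ∀ (p q : n) (u : n → K), E K p q *ᵥ u = u q • Pi.single p (1 : K) := by
    intro p q u
    ext a
    rw [Pi.smul_apply, Pi.single_apply, smul_eq_mul]
    show ∑ b, E K p q a b * u b = _
    simp only [E_apply]
    by_cases h : a = p
    · subst h
      simp
    · simp [h]
  obtain ⟨a, ha⟩ := Function.ne_iff.1 h0
  obtain ⟨p, hp⟩ := Fintype.exists_ne_of_one_lt_card hn a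
  have h1 : (Pi.single p (1 : K) : n → K) ∈ P := by
    have := hl p a hp v hv
    rw [key] at this
    exact (P.smul_mem_iff ha).1 this
  have h2 : ∀ s, (Pi.single s (1 : K) : n → K) ∈ P := by
    intro s
    by_cases h : s = p
    · rw [h]; exact h1
    · have := hl s p h _ h1
      rw [key] at this
      simpa using this
  rw [pi_eq_sum_univ' w]
  refine P.sum_mem fun i _ => P.smul_mem _ ?_
  convert h2 i using 1

/-- the rank one matrix -/
def vw (v w : n → K) : Matrix n n K := Matrix.vecMulVec v w

omit [Fintype n] in
theorem vw_apply (v w : n → K) (a b : n) : vw v w a b = v a * w b := rfl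

/-- forms -/
theorem forms [CharZero K] {P : Submodule K (Matrix n n K)} (hn : 2 < Fintype.card n)
    (h1 : ∀ p q, p ≠ q → ∀ M ∈ P, E K p q * M + M * E K q p ∈ P)
    (h2 : ∀ p q, p ≠ q → ∀ M ∈ P, E K p q * M * E K q p ∈ P) {M : Matrix n n K} (hM : M ∈ P) (h0 : M ≠ 0) :
    (∀ v, vw v v ∈ P) ∨ ∀ v w, vw v w - vw w v ∈ P := by
  by_cases hd : ∃ M ∈ P, ∃ q, M q q ≠ 0
  · left
    obtain ⟨M, hM, q, hq⟩ := hd
    have h3 : ∀ p, p ≠ q → E K p p ∈ P := by
      intro p hp
      have h4 := h2 p q hp M hM
      have h5 : E K p q * M * E K q p = M q q • E K p p := by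
        ext c d
        rw [mul_E_apply, Matrix.smul_apply, E_apply, E_mul_apply]
        by_cases h6 : d = p <;> by_cases h7 : c = p <;> simp [h6, h7]
      rw [h5] at h4
      exact (P.smul_mem_iff hq).1 h4
    have h4 : E K q q ∈ P := by
      obtain ⟨p, hp⟩ := Fintype.exists_ne_of_one_lt_card (by omega : 1 < Fintype.card n) q
      have := h2 q p hp.symm _ (h3 p hp)
      rwa [E_mul_E, if_pos rfl, E_mul_E, if_pos rfl] at this
    have h5 : ∀ p, E K p p ∈ P := by
      intro p
      by_cases h : p = q
      · rw [h]; exact h4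
      · exact h3 p h
    have h6 : ∀ p q, E K p q + E K q p ∈ P := by
      intro p q
      by_cases h : p = q
      · rw [h]; exact P.add_mem (h5 q) (h5 q)
      · have := h1 p q h _ (h5 q)
        rwa [E_mul_E, if_pos rfl, E_mul_E, if_pos rfl] at this
    intro v
    have h7 : (2 : K) • vw v v = ∑ p, ∑ q, (v p * v q) • (E K p q + E K q p) := by
      ext c d
      simp only [Matrix.sum_apply, Matrix.smul_apply, Matrix.add_apply, E_apply, vw_apply, smul_eq_mul]
      simp only [mul_add, Finset.sum_add_distrib, mul_ite, mul_one, mul_zero, ite_and, Finset.sum_ite_eq,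
        Finset.mem_univ, if_true, Finset.sum_ite_irrel, Finset.sum_const_zero]
      ring
    have h8 : (2 : K) • vw v v ∈ P := by
      rw [h7]
      exact P.sum_mem fun p _ => P.sum_mem fun q _ => P.smul_mem _ (h6 p q)
    exact (P.smul_mem_iff (two_ne_zero)).1 h8
  · right
    push Not at hd
    have hanti : ∀ M ∈ P, ∀ p q, M p q + M q p = 0 := by
      intro M hM p q
      by_cases h : p = q
      · rw [h, hd M hM q, add_zero]
      · have h3 := hd _ (h1 p q h M hM) p
        rw [Matrix.add_apply, E_mul_apply, mul_E_apply, if_pos rfl, if_pos rfl] at h3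
        rw [add_comm]; exact h3
    obtain ⟨a, b, hab⟩ : ∃ a b, M a b ≠ 0 := by
      by_contra hc
      push Not at hc
      exact h0 (by ext a b; exact hc a b)
    have hne : a ≠ b := by
      rintro rfl
      exact hab (hd M hM a)
    have hba : M b a = - M a b := eq_neg_of_add_eq_zero_right (hanti M hM a b)
    obtain ⟨p, hpa, hpb⟩ : ∃ p, p ≠ a ∧ p ≠ b := by
      by_contra hc
      push Not at hc
      have : (Finset.univ : Finset n) ⊆ {a, b} := by
        intro p _
        by_cases h : p = a
        · simp [h]
        · simp [hc p h]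
      have := Finset.card_le_card this
      rw [Finset.card_univ] at this
      have h3 : ({a, b} : Finset n).card ≤ 2 := Finset.card_le_two
      omega
    have h3 : E K p a - E K a p ∈ P := by
      have h4 := h1 a b hne _ (h1 p a hpa M hM)
      have h5 : E K a b * (E K p a * M + M * E K a p) + (E K p a * M + M * E K a p) * E K b a =
          M a b • (E K p a - E K a p) := by
        ext c d
        simp only [Matrix.add_apply, Matrix.sub_apply, Matrix.smul_apply, E_mul_apply, mul_E_apply, E_apply,
          smul_eq_mul]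
        by_cases hc : c = a
        · subst hc
          by_cases hd' : d = p
          · subst hd'
            simp [hpa, hpa.symm, hpb.symm, hba]
          · by_cases hd2 : d = c
            · subst hd2
              simp [hpa, hpa.symm, hpb.symm, hba]
            · simp [hpa, hpa.symm, hpb.symm, hd', hd2]
        · by_cases hd' : d = a
          · subst hd'
            by_cases hc2 : c = p
            · subst hc2
              simp [hc, hpb.symm, hpa]
            · simp [hc, hc2, hpb.symm, Ne.symm hpa]
          · simp [hc, hd']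
      rw [h5] at h4
      exact (P.smul_mem_iff hab).1 h4
    have h4 : ∀ r, r ≠ a → E K r a - E K a r ∈ P := by
      intro r hr
      by_cases hrp : r = p
      · rw [hrp]; exact h3
      · have h5 := h1 r p hrp _ h3
        rw [mul_sub, sub_mul, E_mul_E, E_mul_E, E_mul_E, E_mul_E, if_pos rfl, if_neg hpa, if_neg (Ne.symm hpa),
          if_pos rfl, sub_zero, zero_sub, ← sub_eq_add_neg] at h5
        exact h5
    have h5 : ∀ r s, E K r s - E K s r ∈ P := by
      intro r s
      by_cases hr : r = a
      · by_cases hs : s = a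
        · rw [hr, hs, sub_self]; exact P.zero_mem
        · rw [hr]
          have := P.neg_mem (h4 s hs)
          rwa [neg_sub] at this
      · by_cases hs : s = a
        · rw [hs]; exact h4 r hr
        · have h6 := h1 s a hs _ (h4 r hr)
          rw [mul_sub, sub_mul, E_mul_E, E_mul_E, E_mul_E, E_mul_E, if_neg (fun e => hr e.symm), if_pos rfl, if_pos rfl,
            if_neg hr, zero_sub, sub_zero, neg_add_eq_sub] at h6
          exact h6
    intro v w
    have h6 : vw v w - vw w v = ∑ r, ∑ s, (v r * w s) • (E K r s - E K s r) := by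
      ext c d
      simp only [Matrix.sum_apply, Matrix.smul_apply, Matrix.sub_apply, E_apply, vw_apply, smul_eq_mul]
      simp only [mul_sub, Finset.sum_sub_distrib, mul_ite, mul_one, mul_zero, ite_and, Finset.sum_ite_eq,
        Finset.mem_univ, if_true, Finset.sum_ite_irrel, Finset.sum_const_zero]
      ring
    rw [h6]
    exact P.sum_mem fun p _ => P.sum_mem fun q _ => P.smul_mem _ (h5 p q)

/-- endomorphisms -/
theorem adj [CharZero K] {P : Submodule K (Matrix n n K)} (hn : 2 < Fintype.card n)
    (h1 : ∀ p q, p ≠ q → ∀ M ∈ P, E K p q * M - M * E K p q ∈ P)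
    (h2 : ∀ p q, p ≠ q → ∀ M ∈ P, E K p q * M * E K p q ∈ P) :
    (∀ M ∈ P, ∃ a : K, M = a • (1 : Matrix n n K)) ∨ ∀ v w : n → K, w ⬝ᵥ v = 0 → vw v w ∈ P := by
  by_cases hs : ∀ M ∈ P, ∃ a : K, M = a • (1 : Matrix n n K)
  · exact Or.inl hs
  right
  have hex : ∃ p q, p ≠ q ∧ E K p q ∈ P := by
    by_contra hc
    push Not at hc
    apply hs
    intro M hM
    have h3 : ∀ p q, p ≠ q → M q p = 0 := by
      intro p q hpq
      by_contra h4
      apply hc p q hpq
      have h5 := h2 p q hpq M hM
      have h6 : E K p q * M * E K p q = M q p • E K p q := by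
        ext c d
        rw [mul_E_apply, Matrix.smul_apply, E_apply, E_mul_apply]
        by_cases h6 : d = q <;> by_cases h7 : c = p <;> simp [h6, h7]
      rw [h6] at h5
      exact (P.smul_mem_iff h4).1 h5
    have h4 : ∀ p q, M p p = M q q := by
      intro p q
      by_cases hpq : p = q
      · rw [hpq]
      by_contra h5
      apply hc p q hpq
      have h6 := h1 p q hpq M hM
      have h7 : E K p q * M - M * E K p q = (M q q - M p p) • E K p q := by
        ext c d
        rw [Matrix.sub_apply, E_mul_apply, mul_E_apply, Matrix.smul_apply, E_apply]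
        by_cases hc' : c = p
        · by_cases hd : d = q
          · simp [hc', hd]
          · simp [hc', hd, h3 d q hd]
        · by_cases hd : d = q
          · simp [hc', hd, h3 p c (Ne.symm hc')]
          · simp [hc', hd]
      rw [h7] at h6
      exact (P.smul_mem_iff (sub_ne_zero.2 fun e => h5 e.symm)).1 h6
    obtain ⟨p⟩ : Nonempty n := Fintype.card_pos_iff.1 (by omega)
    refine ⟨M p p, ?_⟩
    ext c d
    by_cases h : c = d
    · subst h
      simp [h4 c p]
    · rw [h3 d c (Ne.symm h), Matrix.smul_apply, Matrix.one_apply_ne h, smul_zero]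
  obtain ⟨p, q, hpq, hE⟩ := hex
  have h3 : ∀ r, r ≠ q → E K r q ∈ P := by
    intro r hr
    by_cases hrp : r = p
    · rw [hrp]; exact hE
    · have := h1 r p hrp _ hE
      rwa [E_mul_E, E_mul_E, if_pos rfl, if_neg (Ne.symm hr), sub_zero] at this
  have h4 : ∀ r s, r ≠ q → s ≠ r → E K r s ∈ P := by
    intro r s hr hsr
    by_cases hs : s = q
    · rw [hs]; exact h3 r hr
    · have := h1 q s (Ne.symm hs) _ (h3 r hr)
      rw [E_mul_E, E_mul_E, if_neg hsr, if_pos rfl, zero_sub] at this
      simpa using P.neg_mem this
  have h5 : ∀ r s, r ≠ s → E K r s ∈ P := by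
    intro r s hrs
    by_cases hr : r = q
    · subst hr
      obtain ⟨t, htr, hts⟩ : ∃ t, t ≠ r ∧ t ≠ s := by
        by_contra hc
        push Not at hc
        have : (Finset.univ : Finset n) ⊆ {r, s} := by
          intro t _
          by_cases h : t = r
          · simp [h]
          · simp [hc t h]
        have := Finset.card_le_card this
        rw [Finset.card_univ] at this
        have h3 : ({r, s} : Finset n).card ≤ 2 := Finset.card_le_two
        omega
      have := h1 r t htr.symm _ (h4 t s htr (Ne.symm hts))
      rwa [E_mul_E, E_mul_E, if_pos rfl, if_neg (Ne.symm hrs), sub_zero] at this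
    · exact h4 r s hr (Ne.symm hrs)
  have h6 : ∀ r s, E K r r - E K s s ∈ P := by
    intro r s
    by_cases hrs : r = s
    · rw [hrs, sub_self]; exact P.zero_mem
    · have := h1 r s hrs _ (h5 s r (Ne.symm hrs))
      rwa [E_mul_E, E_mul_E, if_pos rfl, if_pos rfl] at this
  intro v w hvw
  obtain ⟨o⟩ : Nonempty n := Fintype.card_pos_iff.1 (by omega)
  have h7 : vw v w = (∑ r, ∑ s, (v r * w s) • (if r = s then E K r r - E K o o else E K r s)) := by
    have h8 : ∀ r s : n, (v r * w s) • (if r = s then E K r r - E K o o else E K r s) =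
        (v r * w s) • E K r s - if r = s then (v r * w s) • E K o o else 0 := by
      intro r s
      by_cases h : r = s
      · subst h
        simp [smul_sub]
      · simp [h]
    simp only [h8, Finset.sum_sub_distrib]
    have h9 : ∑ r, ∑ s, (if r = s then (v r * w s) • E K o o else 0) = (0 : Matrix n n K) := by
      simp only [Finset.sum_ite_eq, Finset.mem_univ, if_true, ← Finset.sum_smul]
      have : ∑ r, v r * w r = 0 := by
        rw [← hvw]
        exact Finset.sum_congr rfl fun i _ => mul_comm _ _
      rw [this, zero_smul]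
    rw [h9, sub_zero]
    ext c d
    simp only [Matrix.sum_apply, Matrix.smul_apply, E_apply, vw_apply, smul_eq_mul, mul_ite, mul_one, mul_zero, ite_and,
      Finset.sum_ite_eq, Finset.mem_univ, if_true, Finset.sum_ite_irrel, Finset.sum_const_zero]
  rw [h7]
  refine P.sum_mem fun r _ => P.sum_mem fun s _ => P.smul_mem _ ?_
  split_ifs with h
  · exact h6 r o
  · exact h5 r s h

end Pool.Agent.Helper33.KN
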