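import Pool.Agent.Helper33.KN.Defs
import Pool.Agent.Helper33.KN.Blocks

/-!
Stable subspaces of one block are stable under the Zariski closure.
-/

set_option autoImplicit false

open Matrix H77MT Pool.Agent.Helper79.KN

namespace Pool.Agent.Helper33.KN

section Gen

variable {n X : Type}

/-- a diagonal block -/
def blk {R : Type} (A : Matrix (n × X) (n × X) R) (x : X) : Matrix n n R :=
  A.submatrix (fun a => (a, x)) (fun a => (a, x))

theorem blk_map {R S : Type} (φ : R → S) (A : Matrix (n × X) (n × X) R) (x : X) :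
    (blk A x).map φ = blk (A.map φ) x := rfl

theorem blk_blockDiagonal {R : Type} [Zero R] [DecidableEq X] (M : X → Matrix n n R) (x : X) :
    blk (blockDiagonal M) x = M x := by
  ext a b
  simp [blk, blockDiagonal_apply]

variable [Fintype n] [DecidableEq n]

/-- the matrix or its contragredient, up to a scalar -/
def pact {R : Type} [CommRing R] (A : Matrix n n R) (b : Bool) : Matrix n n R := if b then A else A.adjugateᵀ

theorem pact_map {R S : Type} [CommRing R] [CommRing S] (φ : R →+* S) (A : Matrix n n R) (b : Bool) :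
    (pact A b).map φ = pact (A.map φ) b := by
  unfold pact
  cases b
  · simp only [Bool.false_eq_true, if_false]
    rw [Matrix.transpose_map]
    congr 1
    exact RingHom.map_adjugate φ A
  · simp

end Gen

variable {X n K : Type} [Fintype X] [DecidableEq X] [Fintype n] [DecidableEq n] [Field K]

/-- the generic matrix -/
noncomputable def gen (ι K : Type) [Field K] : Matrix ι ι (MvPolynomial (ι × ι) K) :=
  Matrix.of fun i j => MvPolynomial.X (i, j)

theorem gen_map {ι : Type} [Fintype ι] [DecidableEq ι] (x : Matrix ι ι K) :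
    (gen ι K).map (ev x : MvPolynomial (ι × ι) K →+* K) = x := by
  ext i j
  simp [gen]

/-- linear functionals on matrices -/
theorem dual_apply (φ : Matrix n n K →ₗ[K] K) (M : Matrix n n K) : φ M = ∑ a, ∑ b, φ (E K a b) * M a b := by
  conv_lhs => rw [Matrix.matrix_eq_sum_single M]
  rw [map_sum]
  refine Finset.sum_congr rfl fun a _ => ?_
  rw [map_sum]
  refine Finset.sum_congr rfl fun b _ => ?_
  have : Matrix.single a b (M a b) = M a b • E K a b := by
    rw [Matrix.smul_single, smul_eq_mul, mul_one]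
  rw [this, map_smul, smul_eq_mul, mul_comm]

/-- stable subspaces of a block of `T ⊗ T` -/
theorem closed_two {S : Set (Matrix (n × X) (n × X) K)} {P : Submodule K (Matrix n n K)} (i j : X × Bool)
    (h : ∀ s ∈ S, ∀ M ∈ P, pact (blk s i.1) i.2 * M * (pact (blk s j.1) j.2)ᵀ ∈ P) {A : Matrix (n × X) (n × X) K}
    (hA : A ∈ zcl S) {M : Matrix n n K} (hM : M ∈ P) : pact (blk A i.1) i.2 * M * (pact (blk A j.1) j.2)ᵀ ∈ P := by
  by_contra hn
  obtain ⟨φ, hφ, hP⟩ := Submodule.exists_le_ker_of_notMem hn
  let F : MvPolynomial ((n × X) × (n × X)) K := ∑ a, ∑ b, MvPolynomial.C (φ (E K a b)) *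
    (pact (blk (gen (n × X) K) i.1) i.2 * M.map (MvPolynomial.C : K →+* MvPolynomial ((n × X) × (n × X)) K) *
      (pact (blk (gen (n × X) K) j.1) j.2)ᵀ) a b
  have hF : ∀ s : Matrix (n × X) (n × X) K, ev s F =
      φ (pact (blk s i.1) i.2 * M * (pact (blk s j.1) j.2)ᵀ) := by
    intro s
    have e1 : (pact (blk (gen (n × X) K) i.1) i.2 * M.map (MvPolynomial.C : K →+* MvPolynomial ((n × X) × (n × X)) K) *
        (pact (blk (gen (n × X) K) j.1) j.2)ᵀ).map (ev s : MvPolynomial ((n × X) × (n × X)) K →+* K) =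
        pact (blk s i.1) i.2 * M * (pact (blk s j.1) j.2)ᵀ := by
      rw [Matrix.map_mul, Matrix.map_mul, Matrix.transpose_map, pact_map, pact_map, blk_map, blk_map, gen_map]
      congr 2
      ext a b
      simp
    rw [dual_apply φ, ← e1]
    simp only [F, map_sum, map_mul, ev_C, Matrix.map_apply]
    rfl
  apply hφ
  rw [← hF]
  refine hA F fun s hs => ?_
  rw [hF]
  exact hP (h s hs M hM)

/-- stable subspaces of a block of `T` -/
theorem closed_one {S : Set (Matrix (n × X) (n × X) K)} {P : Submodule K (n → K)} (i : X × Bool)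
    (h : ∀ s ∈ S, ∀ v ∈ P, pact (blk s i.1) i.2 *ᵥ v ∈ P) {A : Matrix (n × X) (n × X) K}
    (hA : A ∈ zcl S) {v : n → K} (hv : v ∈ P) : pact (blk A i.1) i.2 *ᵥ v ∈ P := by
  by_contra hn
  obtain ⟨φ, hφ, hP⟩ := Submodule.exists_le_ker_of_notMem hn
  let F : MvPolynomial ((n × X) × (n × X)) K := ∑ a, ∑ b, MvPolynomial.C (φ (Pi.single a 1)) *
    (pact (blk (gen (n × X) K) i.1) i.2 a b * MvPolynomial.C (v b))
  have hφa : ∀ w : n → K, φ w = ∑ a, φ (Pi.single a 1) * w a := by
    intro w
    conv_lhs => rw [pi_eq_sum_univ' w]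
    rw [map_sum]
    refine Finset.sum_congr rfl fun a _ => ?_
    rw [map_smul, smul_eq_mul, mul_comm]
  have hF : ∀ s : Matrix (n × X) (n × X) K, ev s F = φ (pact (blk s i.1) i.2 *ᵥ v) := by
    intro s
    have e1 : ∀ a b, ev s (pact (blk (gen (n × X) K) i.1) i.2 a b) = pact (blk s i.1) i.2 a b := by
      intro a b
      have := congrFun (congrFun (pact_map (ev s : MvPolynomial ((n × X) × (n × X)) K →+* K)
        (blk (gen (n × X) K) i.1) i.2) a) b
      rw [blk_map, gen_map] at this
      exact this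
    rw [hφa]
    simp only [F, map_sum, map_mul, ev_C, e1]
    refine Finset.sum_congr rfl fun a _ => ?_
    rw [← Finset.mul_sum]
    rfl
  apply hφ
  rw [← hF]
  refine hA F fun s hs => ?_
  rw [hF]
  exact hP (h s hs v hv)

end Pool.Agent.Helper33.KN
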