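import Pool.Agent.Helper33.KN.Defs
import Pool.Agent.Helper33.KN.Blocks

/-!
Eigenvectors: units, integrality, and eigenvalues of quotients.
-/

set_option autoImplicit false

open Matrix

namespace Pool.Agent.Helper33.KN

section Lift

variable {K U U' : Type} [Field K] [AddCommGroup U] [Module K U] [FiniteDimensional K U] [AddCommGroup U'] [Module K U']

/-- eigenvalues of a quotient -/
theorem eig_lift (f : U →ₗ[K] U') (A : U →ₗ[K] U) (A' : U' →ₗ[K] U') (hA : ∀ u, f (A u) = A' (f u)) (P : Submodule K U)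
    (hP : ∀ u ∈ P, A u ∈ P) {u' : U'} (hu' : u' ∈ P.map f) (h0 : u' ≠ 0) {z : K} (hz : A' u' = z • u') :
    ∃ u ∈ P, u ≠ 0 ∧ A u = z • u := by
  by_contra hc
  push Not at hc
  have hB : ∀ u ∈ P, (A - z • (LinearMap.id : U →ₗ[K] U)) u ∈ P := fun u hu =>
    P.sub_mem (hP u hu) (P.smul_mem z hu)
  let B : P →ₗ[K] P := (A - z • (LinearMap.id : U →ₗ[K] U)).restrict hB
  have hBi : Function.Injective B := by
    rw [← LinearMap.ker_eq_bot, LinearMap.ker_eq_bot']
    intro p hp
    have h1 : A p - z • (p : U) = 0 := by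
      have := congrArg Subtype.val hp
      simpa [B] using this
    by_contra h2
    exact hc p p.2 (fun e => h2 (Subtype.ext e)) (sub_eq_zero.1 h1)
  have hBs : Function.Surjective B := LinearMap.injective_iff_surjective.1 hBi
  have hB' : ∀ u ∈ P.map f, (A' - z • (LinearMap.id : U' →ₗ[K] U')) u ∈ P.map f := by
    rintro _ ⟨u, hu, rfl⟩
    refine ⟨A u - z • u, hB u hu, ?_⟩
    simp [hA]
  let B' : P.map f →ₗ[K] P.map f := (A' - z • (LinearMap.id : U' →ₗ[K] U')).restrict hB'
  have hBs' : Function.Surjective B' := by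
    rintro ⟨_, ⟨u, hu, rfl⟩⟩
    obtain ⟨p, hp⟩ := hBs ⟨u, hu⟩
    refine ⟨⟨f p, ⟨p, p.2, rfl⟩⟩, ?_⟩
    apply Subtype.ext
    have h1 : A p - z • (p : U) = u := by
      have := congrArg Subtype.val hp
      simpa [B] using this
    show A' (f p) - z • f p = f u
    rw [← hA, ← h1, map_sub, map_smul]
  have hBi' : Function.Injective B' := LinearMap.injective_iff_surjective.2 hBs'
  apply h0
  have h1 : B' ⟨u', hu'⟩ = 0 := by
    apply Subtype.ext
    show A' u' - z • u' = 0
    rw [hz, sub_self]
  have h2 := hBi' (h1.trans (map_zero B').symm)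
  exact congrArg Subtype.val h2

end Lift

section Val

variable {K : Type} [Field K]

/-- integral elements -/
theorem mem_of_integral (O : ValuationSubring K) {y : K} (hy : IsIntegral ℤ y) : y ∈ O := by
  have h1 : IsIntegral O y := hy.tower_top
  obtain ⟨o, ho⟩ := (IsIntegrallyClosed.isIntegral_iff (R := O) (K := K)).1 h1
  rw [← ho]
  exact o.2

/-- a unit is not divisible by a nonunit -/
theorem not_integral (O : ValuationSubring K) {z q : K} (hz : O.valuation z = 1) (hq : O.valuation q < 1) {k : ℕ}
    (hk : 0 < k) (h : IsIntegral ℤ (z * (q ^ k)⁻¹)) (hq0 : q ≠ 0) : False := by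
  have h1 := (O.valuation_le_one_iff _).2 (mem_of_integral O h)
  rw [map_mul, hz, one_mul, map_inv₀, map_pow] at h1
  have h2 : O.valuation q ^ k < 1 := pow_lt_one₀ zero_le hq hk.ne'
  have h3 : O.valuation q ^ k ≠ 0 := pow_ne_zero _ ((Valuation.ne_zero_iff _).2 hq0)
  have h4 : 1 ≤ O.valuation q ^ k := (inv_le_one₀ (zero_lt_iff.2 h3)).1 h1
  exact absurd h2 (not_lt.2 h4)

end Val

section Vec

variable {n K : Type} [Fintype n] [DecidableEq n] [Field K]

/-- eigenvectors -/
theorem exists_eig {A : Matrix n n K} {z : K} (hz : z ∈ A.charpoly.roots) : ∃ v : n → K, v ≠ 0 ∧ A *ᵥ v = z • v := by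
  have h1 : A.charpoly.IsRoot z := Polynomial.isRoot_of_mem_roots hz
  have h2 : Module.End.HasEigenvalue (Matrix.toLin' A) z := by
    rw [Module.End.hasEigenvalue_iff_isRoot_charpoly, Matrix.charpoly_toLin']
    exact h1
  obtain ⟨v, hv⟩ := h2.exists_hasEigenvector
  refine ⟨v, hv.2, ?_⟩
  have h3 := hv.apply_eq_smul
  rwa [Matrix.toLin'_apply] at h3

/-- two eigenvalues: a stable plane -/
theorem exists_plane {A : Matrix n n K} {z w : K} (hzw : ({z, w} : Multiset K) ≤ A.charpoly.roots) :
    ∃ (v u : n → K) (s : K), v ≠ 0 ∧ (∀ c : K, u ≠ c • v) ∧ A *ᵥ v = z • v ∧ A *ᵥ u = w • u + s • v := by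
  classical
  have hz : z ∈ A.charpoly.roots := Multiset.mem_of_le hzw (by simp)
  have hw : w ∈ A.charpoly.roots := Multiset.mem_of_le hzw (by simp)
  by_cases h : z = w
  · subst h
    have h1 : 2 ≤ A.charpoly.rootMultiplicity z := by
      rw [← Polynomial.count_roots]
      have := Multiset.count_le_of_le z hzw
      simpa using this
    have h2 : 2 ≤ Module.finrank K (Module.End.maxGenEigenspace (Matrix.toLin' A) z) := by
      rw [LinearMap.finrank_maxGenEigenspace_eq, Matrix.charpoly_toLin']
      exact h1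
    by_cases h3 : (Module.End.maxGenEigenspace (Matrix.toLin' A) z) ≤ Module.End.eigenspace (Matrix.toLin' A) z
    · have h4 : 2 ≤ Module.finrank K (Module.End.eigenspace (Matrix.toLin' A) z) := h2.trans (Submodule.finrank_mono h3)
      obtain ⟨v, hv0, hv⟩ := exists_eig hz
      have h5 : ∃ u ∈ Module.End.eigenspace (Matrix.toLin' A) z, ∀ c : K, u ≠ c • v := by
        by_contra hc
        push Not at hc
        have h6 : Module.End.eigenspace (Matrix.toLin' A) z ≤ Submodule.span K {v} := by
          intro u hu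
          obtain ⟨c, hc⟩ := hc u hu
          rw [hc]
          exact Submodule.smul_mem _ _ (Submodule.mem_span_singleton_self v)
        have h7 := Submodule.finrank_mono h6
        rw [finrank_span_singleton hv0] at h7
        omega
      obtain ⟨u, hu, huv⟩ := h5
      refine ⟨v, u, 0, hv0, huv, hv, ?_⟩
      rw [Module.End.mem_eigenspace_iff, Matrix.toLin'_apply] at hu
      rw [hu, zero_smul, add_zero]
    · obtain ⟨u', hu', hne⟩ := Set.not_subset.1 h3
      rw [SetLike.mem_coe, Module.End.mem_maxGenEigenspace] at hu'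
      let N : Module.End K (n → K) := Matrix.toLin' A - z • 1
      have hex : ∃ k, (N ^ k) u' = 0 := hu'
      have hk := Nat.find_spec hex
      set k := Nat.find hex with hkdef
      have hk2 : 2 ≤ k := by
        by_contra hlt
        have : k = 0 ∨ k = 1 := by omega
        rcases this with h4 | h4
        · rw [h4, pow_zero] at hk
          apply hne
          have : u' = 0 := hk
          rw [this]
          exact Submodule.zero_mem _
        · rw [h4, pow_one] at hk
          apply hne
          rw [SetLike.mem_coe, Module.End.mem_eigenspace_iff]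
          exact sub_eq_zero.1 hk
      have hk1 : (N ^ (k - 1)) u' ≠ 0 := Nat.find_min hex (by omega)
      have e1 : N ((N ^ (k - 2)) u') = (N ^ (k - 1)) u' := by
        rw [← Module.End.mul_apply, ← pow_succ']
        congr 2
        omega
      have e2 : N ((N ^ (k - 1)) u') = 0 := by
        rw [← Module.End.mul_apply, ← pow_succ', show k - 1 + 1 = k by omega]
        exact hk
      have hN : ∀ x : n → K, N x = A *ᵥ x - z • x := fun x => by
        simp [N]
      refine ⟨(N ^ (k - 1)) u', (N ^ (k - 2)) u', 1, hk1, ?_, ?_, ?_⟩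
      · intro c hc
        have := congrArg N hc
        rw [e1, map_smul, e2, smul_zero] at this
        exact hk1 this
      · rw [hN] at e2
        exact sub_eq_zero.1 e2
      · rw [hN] at e1
        rw [one_smul, ← e1]
        abel
  · obtain ⟨v, hv0, hv⟩ := exists_eig hz
    obtain ⟨u, hu0, hu⟩ := exists_eig hw
    refine ⟨v, u, 0, hv0, ?_, hv, by rw [hu, zero_smul, add_zero]⟩
    intro c hc
    have h1 : A *ᵥ u = z • u := by
      rw [hc, Matrix.mulVec_smul, hv, smul_comm]
    rw [hu] at h1
    have h2 : (w - z) • u = 0 := by rw [sub_smul, h1, sub_self]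
    rcases smul_eq_zero.1 h2 with h3 | h3
    · exact h (sub_eq_zero.1 h3).symm
    · exact hu0 h3

theorem mul_vw (A B : Matrix n n K) (v w : n → K) : A * vw v w * Bᵀ = vw (A *ᵥ v) (B *ᵥ w) := by
  unfold vw
  rw [Matrix.mul_vecMulVec, Matrix.vecMulVec_mul, Matrix.vecMul_transpose]

omit [Fintype n] [DecidableEq n] in
theorem vw_ne {v w : n → K} (hv : v ≠ 0) (hw : w ≠ 0) : vw v w ≠ 0 := by
  obtain ⟨a, ha⟩ := Function.ne_iff.1 hv
  obtain ⟨b, hb⟩ := Function.ne_iff.1 hw
  intro h
  have := congrFun (congrFun h a) b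
  exact mul_ne_zero ha hb this

omit [Fintype n] [DecidableEq n] in
theorem alt_ne {v u : n → K} (hv : v ≠ 0) (hu : ∀ c : K, u ≠ c • v) : vw v u - vw u v ≠ 0 := by
  obtain ⟨a, ha⟩ := Function.ne_iff.1 hv
  intro h
  apply hu (u a * (v a)⁻¹)
  ext b
  have := congrFun (congrFun h a) b
  have h1 : v a * u b - u a * v b = 0 := this
  have ha' : v a ≠ 0 := ha
  rw [Pi.smul_apply, smul_eq_mul]
  field_simp
  linear_combination h1

end Vec

end Pool.Agent.Helper33.KN
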