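import Pool.Agent.Helper33.KN.Stable
import Pool.Agent.Helper33.KN.Eig

/-!
The generalized Tate conjecture for `T` and `T ⊗ T` from the size of the Galois group.
-/

set_option autoImplicit false

open Matrix H77MT Pool.Agent.Helper79.KN

namespace Pool.Agent.Helper33.KN

/-- Lines in `T` and `T ⊗ T` which are stable under a subgroup of finite index (Tate classes): there are none in `T`, and
those in `T ⊗ T` are combinations of the classes of the pairings. -/
def Lines {Γ X n K : Type} [Group Γ] [Fintype n] [DecidableEq n] [Field K] (ρ : Rep Γ X n K) : Prop :=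
  ∀ (m : ℕ) (c : Γ →* Kˣ) (Δ : Subgroup Γ), Δ.FiniteIndex →
    (∀ v, (∀ γ ∈ Δ, ∃ z : K, actOne ρ m c γ v = z • v) → v = 0) ∧
    ∀ M, (∀ γ ∈ Δ, ∃ z : K, actTwo ρ m c γ M = z • M) → M ∈ pairings X n K

variable {Γ X n K : Type} [Group Γ] [Fintype n] [DecidableEq n] [Field K]

theorem act_mul (ρ : Rep Γ X n K) (m : ℕ) (c : Γ →* Kˣ) (γ δ : Γ) (i : X × Bool) :
    act ρ m c (γ * δ) i = act ρ m c γ i * act ρ m c δ i := by
  obtain ⟨x, b⟩ := i
  cases b
  · simp only [act, Bool.false_eq_true, if_false]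
    rw [map_mul, _root_.mul_inv_rev, map_mul, Units.val_mul, Units.val_mul, Matrix.transpose_mul, mul_pow, Matrix.smul_mul,
      Matrix.mul_smul, smul_smul]
  · simp only [act, if_true]
    rw [map_mul, Units.val_mul]

theorem act_one (ρ : Rep Γ X n K) (m : ℕ) (c : Γ →* Kˣ) (i : X × Bool) : act ρ m c 1 i = 1 := by
  obtain ⟨x, b⟩ := i
  cases b <;> simp [act]

theorem act_pow (ρ : Rep Γ X n K) (m : ℕ) (c : Γ →* Kˣ) (γ : Γ) (i : X × Bool) (k : ℕ) :
    act ρ m c (γ ^ k) i = act ρ m c γ i ^ k := by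
  induction k with
  | zero => rw [pow_zero, pow_zero, act_one]
  | succ k ih => rw [pow_succ, act_mul, ih, pow_succ]

/-- the two eigenspaces are dual -/
theorem act_dual (ρ : Rep Γ X n K) (m : ℕ) (c : Γ →* Kˣ) (γ : Γ) (i : X × Bool) :
    (act ρ m c γ i)ᵀ * act ρ m c γ (i.1, !i.2) = ((c γ : K) ^ m) • (1 : Matrix n n K) := by
  obtain ⟨x, b⟩ := i
  have h1 : (ρ x γ⁻¹ : Matrix n n K) * (ρ x γ : Matrix n n K) = 1 := by
    have := gl_mul_inv (ρ x) γ⁻¹
    rwa [inv_inv] at this
  cases b
  · simp only [act, Bool.false_eq_true, if_false, Bool.not_false, if_true]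
    rw [Matrix.transpose_smul, Matrix.transpose_transpose, Matrix.smul_mul, h1]
  · simp only [act, Bool.false_eq_true, if_false, Bool.not_true, if_true]
    rw [Matrix.mul_smul, ← Matrix.transpose_mul, h1, Matrix.transpose_one]

/-- the action on `T` as a linear map -/
def actOneL (ρ : Rep Γ X n K) (m : ℕ) (c : Γ →* Kˣ) (γ : Γ) : (X × Bool → n → K) →ₗ[K] (X × Bool → n → K) where
  toFun := actOne ρ m c γ
  map_add' u v := by
    funext i
    exact Matrix.mulVec_add (act ρ m c γ i) (u i) (v i)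
  map_smul' s u := by
    funext i
    exact Matrix.mulVec_smul (act ρ m c γ i) s (u i)

/-- the action on `T ⊗ T` as a linear map -/
def actTwoL (ρ : Rep Γ X n K) (m : ℕ) (c : Γ →* Kˣ) (γ : Γ) :
    (X × Bool → X × Bool → Matrix n n K) →ₗ[K] (X × Bool → X × Bool → Matrix n n K) where
  toFun := actTwo ρ m c γ
  map_add' u v := by
    funext i j
    simp only [actTwo, Pi.add_apply]
    rw [Matrix.mul_add, Matrix.add_mul]
  map_smul' s u := by
    funext i j
    simp only [actTwo, Pi.smul_apply, RingHom.id_apply]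
    rw [Matrix.mul_smul, Matrix.smul_mul]

/-- the action on a block -/
def blockL (A B : Matrix n n K) : Matrix n n K →ₗ[K] Matrix n n K where
  toFun M := A * M * Bᵀ
  map_add' u v := by rw [Matrix.mul_add, Matrix.add_mul]
  map_smul' s u := by simp only [RingHom.id_apply]; rw [Matrix.mul_smul, Matrix.smul_mul]

theorem block_pow {A B M : Matrix n n K} {z : K} (h : A * M * Bᵀ = z • M) (k : ℕ) :
    A ^ k * M * (B ^ k)ᵀ = z ^ k • M := by
  induction k with
  | zero => simp
  | succ k ih =>
    calc A ^ (k + 1) * M * (B ^ (k + 1))ᵀ = A ^ k * (A * M * Bᵀ) * (B ^ k)ᵀ := by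
          rw [pow_succ A, pow_succ B, Matrix.transpose_mul]
          simp only [Matrix.mul_assoc]
      _ = z ^ (k + 1) • M := by
          rw [h, Matrix.mul_smul, Matrix.smul_mul, ih, smul_smul, pow_succ']

theorem vec_pow {A : Matrix n n K} {v : n → K} {z : K} (h : A *ᵥ v = z • v) (k : ℕ) : A ^ k *ᵥ v = z ^ k • v := by
  induction k with
  | zero => simp
  | succ k ih => rw [pow_succ, ← Matrix.mulVec_mulVec, h, Matrix.mulVec_smul, ih, smul_smul, pow_succ']

open Classical in
theorem exists_unit {A : Matrix n n K} {O : ValuationSubring K}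
    (h : 0 < (A.charpoly.roots.filter fun z => O.valuation z = 1).card) :
    ∃ (z : K) (v : n → K), O.valuation z = 1 ∧ v ≠ 0 ∧ A *ᵥ v = z • v := by
  obtain ⟨z, hz⟩ := Multiset.card_pos_iff_exists_mem.1 h
  obtain ⟨h1, h2⟩ := Multiset.mem_filter.1 hz
  obtain ⟨v, hv, hA⟩ := exists_eig h1
  exact ⟨z, v, h2, hv, hA⟩

open Classical in
theorem exists_two_units {A : Matrix n n K} {O : ValuationSubring K}
    (h : 2 ≤ (A.charpoly.roots.filter fun z => O.valuation z = 1).card) :
    ∃ (z w : K) (v u : n → K) (s : K), O.valuation z = 1 ∧ O.valuation w = 1 ∧ v ≠ 0 ∧ (∀ c : K, u ≠ c • v) ∧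
      A *ᵥ v = z • v ∧ A *ᵥ u = w • u + s • v := by
  obtain ⟨z, hz⟩ := Multiset.card_pos_iff_exists_mem.1 (lt_of_lt_of_le (by norm_num : 0 < 2) h)
  have h1 : 0 < ((A.charpoly.roots.filter fun z => O.valuation z = 1).erase z).card := by
    rw [Multiset.card_erase_of_mem hz]
    exact Nat.lt_pred_iff.2 (lt_of_lt_of_le (by norm_num) h)
  obtain ⟨w, hw⟩ := Multiset.card_pos_iff_exists_mem.1 h1
  have h2 : ({z, w} : Multiset K) ≤ A.charpoly.roots := by
    have h3 : z ::ₘ {w} ≤ A.charpoly.roots.filter fun z => O.valuation z = 1 := by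
      rw [← Multiset.cons_erase hz]
      exact (Multiset.cons_le_cons_iff z).2 (Multiset.singleton_le.2 hw)
    exact h3.trans (Multiset.filter_le _ _)
  obtain ⟨v, u, s, h3, h4, h5, h6⟩ := exists_plane h2
  exact ⟨z, w, v, u, s, (Multiset.mem_filter.1 hz).2, (Multiset.mem_filter.1 (Multiset.mem_of_mem_erase hw)).2, h3, h4,
    h5, h6⟩

section Main

variable [Fintype X] [DecidableEq X]

/-- no unit eigenvalue on a block of an effective subspace of `T` -/
theorem contra_one {ρ : Rep Γ X n K} {m : ℕ} {c : Γ →* Kˣ} {γ₀ : Γ} {P : Submodule K (X × Bool → n → K)}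
    (hP : IsEffective (actOne ρ m c) c γ₀ P) {O : ValuationSubring K} (hO : O.valuation (c γ₀ : K) < 1) (i : X × Bool)
    {v : n → K} (hv : v ∈ P.map (evOne i)) (h0 : v ≠ 0) {z : K} (hz : O.valuation z = 1)
    (hA : act ρ m c γ₀ i *ᵥ v = z • v) : False := by
  obtain ⟨Δ, hΔ, hst, hint⟩ := hP
  obtain ⟨k, hk, -, hkΔ⟩ := Subgroup.exists_pow_mem_of_index_ne_zero hΔ.index_ne_zero γ₀
  obtain ⟨u, hu, hu0, hu1⟩ := eig_lift (evOne i) (actOneL ρ m c (γ₀ ^ k)) (Matrix.mulVecLin (act ρ m c (γ₀ ^ k) i))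
    (fun u => rfl) P (fun u hu => hst _ hkΔ u hu) hv h0 (z := z ^ k)
    (by rw [Matrix.mulVecLin_apply, act_pow, vec_pow hA])
  exact not_integral O (z := z ^ k) (by rw [map_pow, hz, one_pow]) hO hk (hint k hk hkΔ u hu hu0 _ hu1) (c γ₀).ne_zero

/-- no unit eigenvalue on a block of an effective subspace of `T ⊗ T` -/
theorem contra_two {ρ : Rep Γ X n K} {m : ℕ} {c : Γ →* Kˣ} {γ₀ : Γ}
    {P : Submodule K (X × Bool → X × Bool → Matrix n n K)}
    (hP : IsEffective (actTwo ρ m c) c γ₀ P) {O : ValuationSubring K} (hO : O.valuation (c γ₀ : K) < 1) (i j : X × Bool)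
    {M : Matrix n n K} (hM : M ∈ P.map (evTwo i j)) (h0 : M ≠ 0) {z : K} (hz : O.valuation z = 1)
    (hA : act ρ m c γ₀ i * M * (act ρ m c γ₀ j)ᵀ = z • M) : False := by
  obtain ⟨Δ, hΔ, hst, hint⟩ := hP
  obtain ⟨k, hk, -, hkΔ⟩ := Subgroup.exists_pow_mem_of_index_ne_zero hΔ.index_ne_zero γ₀
  obtain ⟨u, hu, hu0, hu1⟩ := eig_lift (evTwo i j) (actTwoL ρ m c (γ₀ ^ k))
    (blockL (act ρ m c (γ₀ ^ k) i) (act ρ m c (γ₀ ^ k) j))
    (fun u => rfl) P (fun u hu => hst _ hkΔ u hu) hM h0 (z := z ^ k)
    (by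
      show act ρ m c (γ₀ ^ k) i * M * (act ρ m c (γ₀ ^ k) j)ᵀ = z ^ k • M
      rw [act_pow, act_pow, block_pow hA])
  exact not_integral O (z := z ^ k) (by rw [map_pow, hz, one_pow]) hO hk (hint k hk hkΔ u hu hu0 _ hu1) (c γ₀).ne_zero

/-- **The corollary.** -/
theorem cor : Cor := by
  intro Γ X T n K _ _ _ _ _ _ _ _ h m ρ hm hn hmeet hfull c γ₀ hord
  constructor
  · intro P hP
    rw [eq_bot_iff]
    intro u hu
    rw [Submodule.mem_bot]
    by_contra hne
    obtain ⟨i, hi⟩ := Function.ne_iff.1 hne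
    obtain ⟨t, ht⟩ := hmeet.one i
    obtain ⟨O, hO, hcount⟩ := hord t
    obtain ⟨z, v, hz, hv0, hv⟩ := exists_unit (A := act ρ m c γ₀ i) (O := O) (by rw [hcount i]; omega)
    obtain ⟨Δ, hΔ, hst, hint⟩ := id hP
    exact contra_one hP hO i (one_all hfull hΔ hst hn i ⟨u, hu, rfl⟩ hi v) hv0 hz hv
  · intro P hP M hM i j
    obtain ⟨Δ, hΔ, hst, hint⟩ := id hP
    have hMij : M i j ∈ P.map (evTwo i j) := ⟨M, hM, rfl⟩
    refine ⟨?_, ?_⟩
    · rintro rfl
      rcases two_adj hfull hΔ hst hn i with h1 | h1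
      · exact h1 _ hMij
      · exfalso
        have hij : i ≠ (i.1, !i.2) := by
          intro e
          have := congrArg Prod.snd e
          simp at this
        obtain ⟨t, ht1, ht2⟩ := hmeet.two i (i.1, !i.2) hij
        obtain ⟨O, hO, hcount⟩ := hord t
        obtain ⟨z, v, hz, hv0, hv⟩ := exists_unit (A := act ρ m c γ₀ i) (O := O) (by rw [hcount i]; exact ht1)
        obtain ⟨w, u, hw, hu0, hu⟩ := exists_unit (A := act ρ m c γ₀ (i.1, !i.2)) (O := O)
          (by rw [hcount]; exact ht2)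
        have hvu : v ⬝ᵥ u = 0 := by
          have h2 : (act ρ m c γ₀ i *ᵥ v) ⬝ᵥ (act ρ m c γ₀ (i.1, !i.2) *ᵥ u) = ((c γ₀ : K) ^ m) * (v ⬝ᵥ u) := by
            rw [← Matrix.vecMul_transpose, ← Matrix.dotProduct_mulVec, Matrix.mulVec_mulVec, act_dual,
              Matrix.smul_mulVec, Matrix.one_mulVec, dotProduct_smul, smul_eq_mul]
          rw [hv, hu, smul_dotProduct, dotProduct_smul, smul_eq_mul, smul_eq_mul, ← mul_assoc] at h2
          by_contra h3
          have h4 : z * w = (c γ₀ : K) ^ m := mul_right_cancel₀ h3 h2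
          have h5 : O.valuation (z * w) = 1 := by rw [map_mul, hz, hw, one_mul]
          rw [h4, map_pow] at h5
          exact absurd h5 (pow_lt_one₀ zero_le hO hm.ne').ne
        exact contra_two hP hO i (i.1, !i.2) (h1 v u (by rw [dotProduct_comm]; exact hvu)) (vw_ne hv0 hu0)
          (z := z * w) (by rw [map_mul, hz, hw, one_mul])
          (by
            rw [mul_vw, hv, hu]
            ext a b
            simp only [vw_apply, Pi.smul_apply, Matrix.smul_apply, smul_eq_mul]
            ring)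
    · intro hne
      by_contra h0
      by_cases hij : i = j
      · subst hij
        obtain ⟨t, ht⟩ := hmeet.one i
        obtain ⟨O, hO, hcount⟩ := hord t
        obtain ⟨z, w, v, u, s, hz, hw, hv0, huv, hv, hu⟩ := exists_two_units (A := act ρ m c γ₀ i) (O := O)
          (by rw [hcount i]; exact ht)
        rcases two_eq hfull hΔ hst hn i hMij h0 with h1 | h1
        · exact contra_two hP hO i i (h1 v) (vw_ne hv0 hv0) (z := z * z) (by rw [map_mul, hz, one_mul])
            (by
              rw [mul_vw, hv]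
              ext a b
              simp only [vw_apply, Pi.smul_apply, Matrix.smul_apply, smul_eq_mul]
              ring)
        · exact contra_two hP hO i i (h1 v u) (alt_ne hv0 huv) (z := z * w) (by rw [map_mul, hz, hw, one_mul])
            (by
              rw [Matrix.mul_sub, Matrix.sub_mul, mul_vw, mul_vw, hv, hu]
              ext a b
              simp only [vw_apply, Pi.smul_apply, Pi.add_apply, Matrix.smul_apply, Matrix.sub_apply, smul_eq_mul]
              ring)
      · have hij1 : i.1 ≠ j.1 := by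
          intro e
          apply hne
          have h2 : i.2 ≠ j.2 := fun e' => hij (Prod.ext e e')
          apply Prod.ext
          · exact e.symm
          · show j.2 = !i.2
            revert h2
            cases i.2 <;> cases j.2 <;> simp
        obtain ⟨t, ht1, ht2⟩ := hmeet.two i j hij
        obtain ⟨O, hO, hcount⟩ := hord t
        obtain ⟨z, v, hz, hv0, hv⟩ := exists_unit (A := act ρ m c γ₀ i) (O := O) (by rw [hcount i]; exact ht1)
        obtain ⟨w, u, hw, hu0, hu⟩ := exists_unit (A := act ρ m c γ₀ j) (O := O) (by rw [hcount j]; exact ht2)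
        exact contra_two hP hO i j (two_ne hfull hΔ hst hn hij1 hMij h0 (vw v u)) (vw_ne hv0 hu0)
          (z := z * w) (by rw [map_mul, hz, hw, one_mul])
          (by
            rw [mul_vw, hv, hu]
            ext a b
            simp only [vw_apply, Pi.smul_apply, Matrix.smul_apply, smul_eq_mul]
            ring)

/-- two independent vectors -/
theorem exists_two (hn : 2 < Fintype.card n) : ∃ a b d : n, a ≠ b ∧ a ≠ d ∧ b ≠ d := by
  obtain ⟨a, b, d, h1, h2, h3⟩ := Fintype.two_lt_card_iff.1 hn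
  exact ⟨a, b, d, h1, h2, h3⟩

/-- **Stable lines.** -/
theorem lines [CharZero K] {ρ : Rep Γ X n K} (hn : 2 < Fintype.card n) (hfull : IsFull ρ) : Lines ρ := by
  intro m c Δ hΔ
  obtain ⟨a, b, d, hab, had, hbd⟩ := exists_two hn
  constructor
  · intro v hv
    have hst : ∀ γ ∈ Δ, ∀ u ∈ Submodule.span K {v}, actOne ρ m c γ u ∈ Submodule.span K {v} := by
      intro γ hγ u hu
      obtain ⟨s, rfl⟩ := Submodule.mem_span_singleton.1 hu
      obtain ⟨z, hz⟩ := hv γ hγ
      have h1 : actOne ρ m c γ (s • v) = s • actOne ρ m c γ v := (actOneL ρ m c γ).map_smul s v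
      rw [h1, hz]
      exact Submodule.smul_mem _ _ (Submodule.smul_mem _ _ (Submodule.mem_span_singleton_self v))
    by_contra hne
    obtain ⟨i, hi⟩ := Function.ne_iff.1 hne
    have h1 := one_all hfull hΔ hst hn i ⟨v, Submodule.mem_span_singleton_self v, rfl⟩ hi
    have h2 : ∀ w : n → K, ∃ s : K, w = s • v i := by
      intro w
      obtain ⟨u, hu, hu1⟩ := h1 w
      obtain ⟨s, rfl⟩ := Submodule.mem_span_singleton.1 hu
      exact ⟨s, hu1.symm⟩
    obtain ⟨s, hs⟩ := h2 (Pi.single a 1)
    obtain ⟨t, ht⟩ := h2 (Pi.single b 1)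
    have e1 := congrFun hs a
    have e2 := congrFun hs b
    have e3 := congrFun ht a
    have e4 := congrFun ht b
    simp [Pi.single_apply, hab, hab.symm] at e1 e2 e3 e4
    rcases e2 with e2 | e2
    · rw [e2] at e1; simp at e1
    · rw [e2] at e4; simp at e4
  · intro M hM
    have hst : ∀ γ ∈ Δ, ∀ u ∈ Submodule.span K {M}, actTwo ρ m c γ u ∈ Submodule.span K {M} := by
      intro γ hγ u hu
      obtain ⟨s, rfl⟩ := Submodule.mem_span_singleton.1 hu
      obtain ⟨z, hz⟩ := hM γ hγ
      have h1 : actTwo ρ m c γ (s • M) = s • actTwo ρ m c γ M := (actTwoL ρ m c γ).map_smul s M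
      rw [h1, hz]
      exact Submodule.smul_mem _ _ (Submodule.smul_mem _ _ (Submodule.mem_span_singleton_self M))
    -- elements of the block are proportional
    have hprop : ∀ i j, ∀ A ∈ (Submodule.span K {M}).map (evTwo i j), ∀ B ∈ (Submodule.span K {M}).map (evTwo i j),
        ∀ p q r s, A p q * B r s = A r s * B p q := by
      rintro i j _ ⟨A, hA, rfl⟩ _ ⟨B, hB, rfl⟩ p q r s
      obtain ⟨x, rfl⟩ := Submodule.mem_span_singleton.1 hA
      obtain ⟨y, rfl⟩ := Submodule.mem_span_singleton.1 hB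
      rw [evTwo_apply, evTwo_apply]
      simp only [Pi.smul_apply, Matrix.smul_apply, smul_eq_mul]
      ring
    intro i j
    have hMij : M i j ∈ (Submodule.span K {M}).map (evTwo i j) := ⟨M, Submodule.mem_span_singleton_self M, rfl⟩
    refine ⟨?_, ?_⟩
    · rintro rfl
      rcases two_adj hfull hΔ hst hn i with h1 | h1
      · exact h1 _ hMij
      · exfalso
        have h2 := h1 (Pi.single a 1) (Pi.single b 1) (by simp [hab])
        have h3 := h1 (Pi.single b 1) (Pi.single a 1) (by simp [hab.symm])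
        have h4 := hprop _ _ _ h2 _ h3 a b b a
        simp [vw_apply, Pi.single_apply, hab, hab.symm] at h4
    · intro hne
      by_contra h0
      by_cases hij : i = j
      · subst hij
        rcases two_eq hfull hΔ hst hn i hMij h0 with h1 | h1
        · have h4 := hprop _ _ _ (h1 (Pi.single a 1)) _ (h1 (Pi.single b 1)) a a b b
          simp [vw_apply, Pi.single_apply, hab, hab.symm] at h4
        · have h4 := hprop _ _ _ (h1 (Pi.single a 1) (Pi.single b 1)) _ (h1 (Pi.single a 1) (Pi.single d 1)) a b a d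
          simp [vw_apply, Pi.single_apply, hab, hab.symm, had, had.symm, hbd, hbd.symm] at h4
      · have hij1 : i.1 ≠ j.1 := by
          intro e
          apply hne
          have h2 : i.2 ≠ j.2 := fun e' => hij (Prod.ext e e')
          apply Prod.ext
          · exact e.symm
          · show j.2 = !i.2
            revert h2
            cases i.2 <;> cases j.2 <;> simp
        have h4 := hprop _ _ _ (two_ne hfull hΔ hst hn hij1 hMij h0 (vw (Pi.single a 1) (Pi.single a 1))) _
          (two_ne hfull hΔ hst hn hij1 hMij h0 (vw (Pi.single b 1) (Pi.single b 1))) a a b b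
        simp [vw_apply, Pi.single_apply, hab, hab.symm] at h4

end Main

end Pool.Agent.Helper33.KN
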