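import Pool.Agent.Helper33.KN.Close

/-!
The blocks of the subspaces of `T` and `T ⊗ T` which are stable under a subgroup of finite index.
-/

set_option autoImplicit false

open Matrix H77MT Pool.Agent.Helper79.KN

namespace Pool.Agent.Helper33.KN

variable {Γ X n K : Type} [Group Γ] [Fintype X] [DecidableEq X] [Fintype n] [DecidableEq n] [Field K]

/-- the block of an element of `T ⊗ T` -/
def evTwo (i j : X × Bool) : (X × Bool → X × Bool → Matrix n n K) →ₗ[K] Matrix n n K where
  toFun M := M i j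
  map_add' _ _ := rfl
  map_smul' _ _ := rfl

omit [Fintype X] [DecidableEq X] [Fintype n] [DecidableEq n] in
theorem evTwo_apply (i j : X × Bool) (M : X × Bool → X × Bool → Matrix n n K) : evTwo i j M = M i j := rfl

/-- the block of an element of `T` -/
def evOne (i : X × Bool) : (X × Bool → n → K) →ₗ[K] (n → K) where
  toFun v := v i
  map_add' _ _ := rfl
  map_smul' _ _ := rfl

omit [Fintype X] [DecidableEq X] [Fintype n] [DecidableEq n] in
theorem evOne_apply (i : X × Bool) (v : X × Bool → n → K) : evOne i v = v i := rfl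

theorem adj_eq {R : Type} [CommRing R] {A B : Matrix n n R} (h : A * B = 1) : A.adjugate = A.det • B := by
  calc A.adjugate = A.adjugate * (A * B) := by rw [h, Matrix.mul_one]
    _ = (A.adjugate * A) * B := by rw [Matrix.mul_assoc]
    _ = A.det • B := by rw [Matrix.adjugate_mul, Matrix.smul_mul, Matrix.one_mul]

theorem gl_mul_inv (A : Γ →* GL n K) (γ : Γ) : (A γ : Matrix n n K) * (A γ⁻¹ : Matrix n n K) = 1 := by
  rw [← Units.val_mul, ← map_mul, mul_inv_cancel, map_one, Units.val_one]

omit [Fintype X] [DecidableEq X] in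
/-- `act` and `pact` differ by a scalar -/
theorem pact_eq (ρ : Rep Γ X n K) (m : ℕ) (c : Γ →* Kˣ) (γ : Γ) (i : X × Bool) :
    ∃ s : K, pact (ρ i.1 γ : Matrix n n K) i.2 = s • act ρ m c γ i := by
  obtain ⟨x, b⟩ := i
  cases b
  · refine ⟨(ρ x γ : Matrix n n K).det * ((c γ : K) ^ m)⁻¹, ?_⟩
    have hc : ((c γ : K) ^ m) ≠ 0 := pow_ne_zero _ (c γ).ne_zero
    simp only [pact, act, Bool.false_eq_true, if_false]
    rw [adj_eq (gl_mul_inv (ρ x) γ), Matrix.transpose_smul, smul_smul, mul_assoc, inv_mul_cancel₀ hc, mul_one]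
  · exact ⟨1, by simp [pact, act]⟩

theorem pact_one (b : Bool) : pact (1 : Matrix n n K) b = 1 := by
  unfold pact
  cases b <;> simp

/-- transvections -/
theorem trans (b : Bool) {p q : n} (hpq : p ≠ q) (a : K) : ∃ A : Matrix n n K, A.det = 1 ∧
    pact A b = 1 + a • E K p q ∧ pact A (!b) = 1 - a • E K q p := by
  have key : ∀ (p q : n) (_ : p ≠ q) (a : K), (1 + a • E K p q).det = 1 ∧
      (1 + a • E K p q).adjugate = 1 - a • E K p q := by
    intro p q hpq a
    have h0 : (1 + a • E K p q) = Matrix.transvection p q a := by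
      rw [Matrix.transvection, Matrix.smul_single, smul_eq_mul, mul_one]
    have h1 : (1 + a • E K p q).det = 1 := by
      rw [h0, Matrix.det_transvection_of_ne p q hpq]
    refine ⟨h1, ?_⟩
    have h2 : (1 + a • E K p q) * (1 - a • E K p q) = 1 := by
      have h3 : (a • E K p q) * (a • E K p q) = 0 := by
        rw [Matrix.smul_mul, Matrix.mul_smul, E_mul_E, if_neg (Ne.symm hpq), smul_zero, smul_zero]
      have h4 : ∀ x : Matrix n n K, x * x = 0 → (1 + x) * (1 - x) = 1 := by
        intro x hx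
        calc (1 + x) * (1 - x) = 1 - x * x := by noncomm_ring
          _ = 1 := by rw [hx, sub_zero]
      exact h4 _ h3
    rw [adj_eq h2, h1, one_smul]
  have ht : ∀ p q : n, (E K p q)ᵀ = E K q p := fun p q => by
    simp [E, Matrix.transpose_single]
  cases b
  · refine ⟨1 + (-a) • E K q p, (key q p hpq.symm _).1, ?_, ?_⟩
    · simp only [pact, Bool.false_eq_true, if_false]
      rw [(key q p hpq.symm _).2, Matrix.transpose_sub, Matrix.transpose_one, Matrix.transpose_smul, ht, neg_smul,
        sub_neg_eq_add]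
    · simp only [pact, Bool.not_false, if_true]
      rw [neg_smul, sub_eq_add_neg]
  · refine ⟨1 + a • E K p q, (key p q hpq _).1, ?_, ?_⟩
    · simp [pact]
    · simp only [pact, Bool.not_true, Bool.false_eq_true, if_false]
      rw [(key p q hpq _).2, Matrix.transpose_sub, Matrix.transpose_one, Matrix.transpose_smul, ht]

section Two

variable {ρ : Rep Γ X n K} (hfull : IsFull ρ) {m : ℕ} {c : Γ →* Kˣ} {Δ : Subgroup Γ} (hΔ : Δ.FiniteIndex)
  {P : Submodule K (X × Bool → X × Bool → Matrix n n K)} (hP : ∀ γ ∈ Δ, ∀ M ∈ P, actTwo ρ m c γ M ∈ P)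

include hfull hΔ hP

/-- the block is stable under the special linear groups -/
theorem stab_two (i j : X × Bool) (A : X → Matrix n n K) (hA : ∀ x, (A x).det = 1) {M : Matrix n n K}
    (hM : M ∈ P.map (evTwo i j)) : pact (A i.1) i.2 * M * (pact (A j.1) j.2)ᵀ ∈ P.map (evTwo i j) := by
  have h1 := closed_two (S := img ρ Δ) (P := P.map (evTwo i j)) i j ?_ (hfull Δ hΔ A hA) hM
  · rw [blk_blockDiagonal, blk_blockDiagonal] at h1
    exact h1
  · rintro _ ⟨γ, hγ, rfl⟩ M' hM'
    rw [mat, blk_blockDiagonal, blk_blockDiagonal]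
    obtain ⟨M, hM, rfl⟩ := hM'
    obtain ⟨s, hs⟩ := pact_eq ρ m c γ i
    obtain ⟨t, ht⟩ := pact_eq ρ m c γ j
    rw [hs, ht, Matrix.transpose_smul, Matrix.smul_mul, Matrix.smul_mul, Matrix.mul_smul]
    refine Submodule.smul_mem _ _ (Submodule.smul_mem _ _ ⟨_, hP γ hγ M hM, rfl⟩)

/-- different characters -/
theorem two_ne [CharZero K] (hn : 2 < Fintype.card n) {i j : X × Bool} (hij : i.1 ≠ j.1) {M : Matrix n n K}
    (hM : M ∈ P.map (evTwo i j)) (h0 : M ≠ 0) (N : Matrix n n K) : N ∈ P.map (evTwo i j) := by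
  refine all_of_mul (by omega) ?_ ?_ hM h0 N
  · intro p q hpq M hM
    obtain ⟨A, hA1, hA2, -⟩ := trans i.2 hpq (1 : K)
    have h1 := stab_two hfull hΔ hP i j (fun x => if x = i.1 then A else 1)
      (fun x => by by_cases h : x = i.1 <;> simp [h, hA1]) hM
    simp only [if_true] at h1
    rw [if_neg (Ne.symm hij), pact_one, Matrix.transpose_one, Matrix.mul_one, hA2, one_smul, add_mul, Matrix.one_mul]
      at h1
    simpa using Submodule.sub_mem _ h1 hM
  · intro p q hpq M hM
    obtain ⟨A, hA1, hA2, -⟩ := trans j.2 (Ne.symm hpq) (1 : K)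
    have h1 := stab_two hfull hΔ hP i j (fun x => if x = j.1 then A else 1)
      (fun x => by by_cases h : x = j.1 <;> simp [h, hA1]) hM
    simp only [if_true] at h1
    rw [if_neg hij, pact_one, Matrix.one_mul, hA2, one_smul, Matrix.transpose_add, Matrix.transpose_one,
      Matrix.transpose_single, mul_add, Matrix.mul_one] at h1
    simpa using Submodule.sub_mem _ h1 hM

omit hfull hΔ hP in
theorem two_split [CharZero K] {V : Type} [AddCommGroup V] [Module K V] {Q : Submodule K V} {u v w : V}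
    (h1 : u + v + w ∈ Q) (h2 : u - v + w ∈ Q) (hu : u ∈ Q) : v ∈ Q ∧ w ∈ Q := by
  have h3 : (2 : K) • v ∈ Q := by
    have := Q.sub_mem h1 h2
    have e : u + v + w - (u - v + w) = (2 : K) • v := by rw [two_smul]; abel
    rwa [e] at this
  have hv : v ∈ Q := (Q.smul_mem_iff two_ne_zero).1 h3
  refine ⟨hv, ?_⟩
  have := Q.sub_mem (Q.sub_mem h1 hu) hv
  have e : u + v + w - u - v = w := by abel
  rwa [e] at this

/-- equal characters -/
theorem two_eq [CharZero K] (hn : 2 < Fintype.card n) (i : X × Bool) {M : Matrix n n K}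
    (hM : M ∈ P.map (evTwo i i)) (h0 : M ≠ 0) :
    (∀ v, vw v v ∈ P.map (evTwo i i)) ∨ ∀ v w, vw v w - vw w v ∈ P.map (evTwo i i) := by
  have key : ∀ p q, p ≠ q → ∀ M ∈ P.map (evTwo i i), (E K p q * M + M * E K q p ∈ P.map (evTwo i i)) ∧
      E K p q * M * E K q p ∈ P.map (evTwo i i) := by
    intro p q hpq M hM
    have h1 : ∀ a : K, (1 + a • E K p q) * M * (1 + a • E K q p) ∈ P.map (evTwo i i) := by
      intro a
      obtain ⟨A, hA1, hA2, -⟩ := trans i.2 hpq a
      have h1 := stab_two hfull hΔ hP i i (fun x => A) (fun x => hA1) hM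
      rwa [hA2, Matrix.transpose_add, Matrix.transpose_one, Matrix.transpose_smul, Matrix.transpose_single] at h1
    refine two_split (u := M) ?_ ?_ hM
    · have := h1 1
      simp only [one_smul] at this
      convert this using 1
      noncomm_ring
    · have := h1 (-1)
      simp only [neg_smul, one_smul] at this
      convert this using 1
      noncomm_ring
  exact forms hn (fun p q h M hM => (key p q h M hM).1) (fun p q h M hM => (key p q h M hM).2) hM h0

/-- inverse characters -/
theorem two_adj [CharZero K] (hn : 2 < Fintype.card n) (i : X × Bool) :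
    (∀ M ∈ P.map (evTwo i (i.1, !i.2)), ∃ a : K, M = a • (1 : Matrix n n K)) ∨
      ∀ v w : n → K, w ⬝ᵥ v = 0 → vw v w ∈ P.map (evTwo i (i.1, !i.2)) := by
  have key : ∀ p q, p ≠ q → ∀ M ∈ P.map (evTwo i (i.1, !i.2)), (E K p q * M - M * E K p q ∈ P.map (evTwo i (i.1, !i.2))) ∧
      -(E K p q * M * E K p q) ∈ P.map (evTwo i (i.1, !i.2)) := by
    intro p q hpq M hM
    have h1 : ∀ a : K, (1 + a • E K p q) * M * (1 - a • E K p q) ∈ P.map (evTwo i (i.1, !i.2)) := by
      intro a
      obtain ⟨A, hA1, hA2, hA3⟩ := trans i.2 hpq a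
      have h1 := stab_two hfull hΔ hP i (i.1, !i.2) (fun x => A) (fun x => hA1) hM
      rwa [hA2, hA3, Matrix.transpose_sub, Matrix.transpose_one, Matrix.transpose_smul, Matrix.transpose_single] at h1
    refine two_split (u := M) ?_ ?_ hM
    · have := h1 1
      simp only [one_smul] at this
      convert this using 1
      noncomm_ring
    · have := h1 (-1)
      simp only [neg_smul, one_smul] at this
      convert this using 1
      noncomm_ring
  refine adj hn (fun p q h M hM => (key p q h M hM).1) (fun p q h M hM => ?_)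
  simpa using Submodule.neg_mem _ (key p q h M hM).2

end Two

section One

variable {ρ : Rep Γ X n K} (hfull : IsFull ρ) {m : ℕ} {c : Γ →* Kˣ} {Δ : Subgroup Γ} (hΔ : Δ.FiniteIndex)
  {P : Submodule K (X × Bool → n → K)} (hP : ∀ γ ∈ Δ, ∀ v ∈ P, actOne ρ m c γ v ∈ P)

include hfull hΔ hP

/-- `T` -/
theorem one_all (hn : 2 < Fintype.card n) (i : X × Bool) {v : n → K}
    (hv : v ∈ P.map (evOne i)) (h0 : v ≠ 0) (w : n → K) : w ∈ P.map (evOne i) := by
  refine all_vec (by omega) ?_ hv h0 w
  intro p q hpq v hv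
  obtain ⟨A, hA1, hA2, -⟩ := trans i.2 hpq (1 : K)
  have h1 := closed_one (S := img ρ Δ) (P := P.map (evOne i)) i ?_ (hfull Δ hΔ (fun _ => A) fun _ => hA1) hv
  · rw [blk_blockDiagonal, hA2, one_smul, Matrix.add_mulVec, Matrix.one_mulVec] at h1
    simpa using Submodule.sub_mem _ h1 hv
  · rintro _ ⟨γ, hγ, rfl⟩ v' hv'
    rw [mat, blk_blockDiagonal]
    obtain ⟨v, hv, rfl⟩ := hv'
    obtain ⟨s, hs⟩ := pact_eq ρ m c γ i
    rw [hs, Matrix.smul_mulVec]
    exact Submodule.smul_mem _ _ ⟨_, hP γ hγ v hv, rfl⟩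

end One

end Pool.Agent.Helper33.KN
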